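import Mathlib
import Pool.Agent.Helpers.Twin4796

set_option autoImplicit false

namespace Pool.Agent.Results.MP_0ff3a5_nt.BadBelowPhi

/-- A set `A` of integers is complete: all integers `m ≥ N` are sums of finite subsets of `A`. -/
def Complete (A : Set ℤ) : Prop :=
  ∃ N : ℤ, ∀ m : ℤ, N ≤ m → ∃ F : Finset ℤ, (F : Set ℤ) ⊆ A ∧ ∑ a ∈ F, a = m

/-- The pair `(t, α)` is good: the set `{⌊t α ^ n⌋ : n ≥ 0}` is complete. -/
def Good (t α : ℝ) : Prop := Complete (Set.range fun n : ℕ => ⌊t * α ^ n⌋)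

/-- There are `α` strictly between `1` and the golden ratio, a root of
`x^5 = x^3 + x^2 + x + 1`, and `t > 0` such that all `⌊t α ^ n⌋` are even; none of the pairs
`(t α ^ k, α)`, `k ≥ 0`, is good, and `t α ^ k` takes arbitrarily large values. -/
theorem result : ∃ t α : ℝ, 0 < t ∧ 1 < α ∧ α < (1 + Real.sqrt 5) / 2 ∧
    α ^ 5 = α ^ 3 + α ^ 2 + α + 1 ∧ (∀ n : ℕ, (2 : ℤ) ∣ ⌊t * α ^ n⌋) ∧
    (∀ k : ℕ, ¬ Good (t * α ^ k) α) ∧ Filter.Tendsto (fun k : ℕ => t * α ^ k) Filter.atTop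
      Filter.atTop := by
  obtain ⟨a, h5, hl, hu⟩ := Pool.Agent.Helpers.Twin4796.exists_alpha
  obtain ⟨τ, hτ, hE⟩ := Pool.Agent.Helpers.Twin4796.key a h5 hl hu
  have hs5 : (2.23 : ℝ) < Real.sqrt 5 := by
    rw [show (2.23 : ℝ) = Real.sqrt (2.23^2) by rw [Real.sqrt_sq (by norm_num)]]
    apply Real.sqrt_lt_sqrt <;> norm_num
  have ha1 : 1 < a := by norm_num at hl; linarith
  have ha2 : a < (1 + Real.sqrt 5) / 2 := by norm_num at hu hs5 ⊢; linarith
  have hfloor : ∀ n, ⌊2 / 3 * τ * a ^ n⌋ = 2 * ((Pool.Agent.Helpers.Twin4796.V n - 1) / 3) := by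
    intro n
    obtain ⟨m, hm⟩ : ∃ m, Pool.Agent.Helpers.Twin4796.V n = 3 * m + 1 :=
      ⟨(Pool.Agent.Helpers.Twin4796.V n - 1) / 3, by
        have := (Pool.Agent.Helpers.Twin4796.V_mod n).1; omega⟩
    have h2 : (Pool.Agent.Helpers.Twin4796.V n - 1) / 3 = m := by omega
    rw [h2, Int.floor_eq_iff]
    have h := abs_lt.mp (hE n)
    rw [hm] at h
    push_cast at h ⊢
    constructor <;> nlinarith [h.1, h.2]
  have hev : ∀ n : ℕ, (2 : ℤ) ∣ ⌊2 / 3 * τ * a ^ n⌋ := fun n => by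
    rw [hfloor n]
    exact Dvd.intro _ rfl
  refine ⟨2 / 3 * τ, a, by positivity, ha1, ha2, h5, hev, ?_, ?_⟩
  · rintro k ⟨N, hN⟩
    obtain ⟨F, hF, hsum⟩ := hN (2 * |N| + 1) (by
      have := le_abs_self N; have := abs_nonneg N; omega)
    have heven : ∀ i ∈ F, (2 : ℤ) ∣ i := by
      intro i hi
      obtain ⟨n, hn⟩ := hF hi
      simp only at hn
      rw [← hn, mul_assoc, ← pow_add]
      exact hev (k + n)
    have := Finset.dvd_sum heven
    rw [hsum] at this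
    omega
  · exact (tendsto_pow_atTop_atTop_of_one_lt ha1).const_mul_atTop (by positivity)

end Pool.Agent.Results.MP_0ff3a5_nt.BadBelowPhi
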